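import Mathlib

set_option autoImplicit false

/-!
Discrete bidding play of combinatorial game forms.
-/

namespace Pool.Agent.Helper5.Bidding

/-- Game forms: a form is given by a finite family `L` of Left options and a finite family `R` of
Right options, which are game forms. -/
inductive Form : Type
  | mk (m n : ℕ) (L : Fin m → Form) (R : Fin n → Form) : Form

namespace Form

/-- the form `0`, without options -/
def zero : Form := mk 0 0 (fun i => i.elim0) (fun j => j.elim0)

/-- the conjugate form: recursively exchange Left and Right -/
def conj : Form → Form
  | mk m n L R => mk n m (fun j => conj (R j)) (fun i => conj (L i))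

/-- The disjunctive sum. For `G = mk m n L R` and `H = mk m' n' L' R'` the Left options of `G + H`
are the forms `L i + H` and `G + L' i`, the Right options the forms `R j + H` and `G + R' j`; the
inner recursion over `H` is written with `Form.rec`, whose variables `ihL i`, `ihR j` stand for
`G + L' i`, `G + R' j`. -/
noncomputable def add : Form → Form → Form
  | mk m n L R => fun H => Form.rec
      (fun m' n' L' R' ihL ihR => mk (m + m') (n + n')
        (Fin.addCases (fun i => add (L i) (mk m' n' L' R')) ihL)
        (Fin.addCases (fun j => add (R j) (mk m' n' L' R')) ihR)) H

/-- `LeftWins TB G p s`: Left wins the position in which the form is `G`, Left owns `p` units, Right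
owns `TB - p` units, and Left holds the marker if `s = true`, Right if `s = false`. Left has a bid
`l ≤ p` and a decision `a` (hand over the marker together with a winning bid, if Left holds it)
that wins against all bids `r ≤ TB - p` and decisions `b` of Right. If `r < l`, or `r = l` and Left
holds the marker, then Left wins the round: she pays `l` and moves to a Left option; the marker goes
to Right if `r = l`, and otherwise it goes to Right exactly if Right had it or `a = true`. In the
other case Right wins the round: he pays `r` and moves to a Right option; the marker goes to Left
if `r = l`, and otherwise it goes to Left exactly if Left had it or `b = true`. A player who wins a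
round and has no option loses. -/
def LeftWins (TB : ℕ) : Form → ℕ → Bool → Prop
  | mk _ _ L R, p, s =>
    ∃ l ≤ p, ∃ a : Bool, ∀ r ≤ TB - p, ∀ b : Bool,
      if r < l ∨ (r = l ∧ s = true) then
        ∃ i, LeftWins TB (L i) (p - l) (if r = l then false else s && !a)
      else
        ∀ j, LeftWins TB (R j) (p + r) (if r = l then true else s || b)

/-- `RightWins TB G p s`: Right wins the position, i.e. he has a bid `r` and a decision `b` that win
against all bids and decisions of Left. -/
def RightWins (TB : ℕ) : Form → ℕ → Bool → Prop
  | mk _ _ L R, p, s =>
    ∃ r ≤ TB - p, ∃ b : Bool, ∀ l ≤ p, ∀ a : Bool,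
      if r < l ∨ (r = l ∧ s = true) then
        ∀ i, RightWins TB (L i) (p - l) (if r = l then false else s && !a)
      else
        ∃ j, RightWins TB (R j) (p + r) (if r = l then true else s || b)

/-- `G ≥ H` with total budget `TB`: for every form `X` and every distribution of budget and marker,
if Left wins `H + X` then Left wins `G + X`. -/
def Ge (TB : ℕ) (G H : Form) : Prop :=
  ∀ (X : Form) (p : ℕ) (s : Bool), p ≤ TB → LeftWins TB (H.add X) p s → LeftWins TB (G.add X) p s

/-- `G = H` with total budget `TB`: `G ≥ H` and `H ≥ G`. -/
def Eqv (TB : ℕ) (G H : Form) : Prop := Ge TB G H ∧ Ge TB H G

end Form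

end Pool.Agent.Helper5.Bidding
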