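import Pool.Agent.Helper5.Bidding.Thresholds

set_option autoImplicit false

namespace Pool.Agent.Helper5.Bidding

namespace Form

theorem leftWins_mk (TB m n : ℕ) (L : Fin m → Form) (R : Fin n → Form) (p : ℕ) (s : Bool) :
    LeftWins TB (mk m n L R) p s ↔
    ∃ l ≤ p, ∃ a : Bool, ∀ r ≤ TB - p, ∀ b : Bool,
      if r < l ∨ (r = l ∧ s = true) then
        ∃ i, LeftWins TB (L i) (p - l) (if r = l then false else s && !a)
      else
        ∀ j, LeftWins TB (R j) (p + r) (if r = l then true else s || b) := Iff.rfl

theorem rightWins_mk (TB m n : ℕ) (L : Fin m → Form) (R : Fin n → Form) (p : ℕ) (s : Bool) :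
    RightWins TB (mk m n L R) p s ↔
    ∃ r ≤ TB - p, ∃ b : Bool, ∀ l ≤ p, ∀ a : Bool,
      if r < l ∨ (r = l ∧ s = true) then
        ∀ i, RightWins TB (L i) (p - l) (if r = l then false else s && !a)
      else
        ∃ j, RightWins TB (R j) (p + r) (if r = l then true else s || b) := Iff.rfl

/-- The outcome is given by the thresholds. -/
theorem leftWins_iff (TB : ℕ) (G : Form) : ∀ p ≤ TB,
    (LeftWins TB G p false ↔ U (TB + 1) G ≤ p) ∧ (LeftWins TB G p true ↔ H (TB + 1) G ≤ p) := by
  induction G with
  | mk m n L R ihL ihR =>
    intro p hp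
    -- facts on the options
    have l1 : ∀ i, ∀ q ≤ TB, LeftWins TB (L i) q false → la (TB + 1) (mk m n L R) ≤ q := by
      intro i q hq h
      exact (la_le_iff _ _ _).mpr (Or.inr ⟨L i, ⟨i, rfl⟩, ((ihL i q hq).1).mp h⟩)
    have l2 : ∀ i, ∀ q ≤ TB, LeftWins TB (L i) q true → la (TB + 1) (mk m n L R) ≤ q + 1 := by
      intro i q hq h
      have h1 := ((ihL i q hq).2).mp h
      have h2 := U_le_H (TB + 1) (L i)
      exact (la_le_iff _ _ _).mpr (Or.inr ⟨L i, ⟨i, rfl⟩, by omega⟩)
    have l3 : ∀ q ≤ TB, la (TB + 1) (mk m n L R) ≤ q → ∃ i, LeftWins TB (L i) q false := by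
      intro q hq h
      rcases (la_le_iff _ _ _).mp h with h1 | ⟨x, ⟨i, rfl⟩, h1⟩
      · omega
      · exact ⟨i, ((ihL i q hq).1).mpr h1⟩
    have r1 : ∀ q ≤ TB, (∀ j, LeftWins TB (R j) q true) → rh (TB + 1) (mk m n L R) ≤ q := by
      intro q hq h
      rw [rh_le_iff]
      rintro x ⟨j, rfl⟩
      exact ((ihR j q hq).2).mp (h j)
    have r2 : ∀ q ≤ TB, rh (TB + 1) (mk m n L R) ≤ q → ∀ j, LeftWins TB (R j) q true := by
      intro q hq h j
      exact ((ihR j q hq).2).mpr ((rh_le_iff _ _ _).mp h _ ⟨j, rfl⟩)
    have r3 : ∀ q ≤ TB, rh (TB + 1) (mk m n L R) + 1 ≤ q → ∀ j, LeftWins TB (R j) q false := by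
      intro q hq h j
      have h1 : H (TB + 1) (R j) ≤ rh (TB + 1) (mk m n L R) :=
        (rh_le_iff _ _ _).mp le_rfl _ ⟨j, rfl⟩
      have h2 := U_le_H (TB + 1) (R j)
      exact ((ihR j q hq).1).mpr (by omega)
    have hla := la_le (TB + 1) (mk m n L R)
    have hrh := rh_le (TB + 1) (mk m n L R)
    constructor
    · rw [leftWins_mk]
      constructor
      · rintro ⟨l, hl, a, h⟩
        rcases Nat.eq_zero_or_pos l with h0 | h0
        · have h1 := h 0 (by omega) true
          rw [if_neg (by rw [h0]; simp)] at h1
          have h2 : ∀ j, LeftWins TB (R j) (p + 0) true := by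
            intro j
            have := h1 j
            rwa [if_pos h0.symm] at this
          have h3 := r1 (p + 0) (by omega) h2
          rw [U_eq]
          omega
        · have h1 := h 0 (by omega) true
          rw [if_pos (Or.inl h0)] at h1
          obtain ⟨i, hi⟩ := h1
          rw [if_neg (by omega)] at hi
          have h2 := l1 i (p - l) (by omega) hi
          have h3 : rh (TB + 1) (mk m n L R) ≤ p + l := by
            by_cases hlD : l ≤ TB - p
            · have h4 := h l hlD true
              rw [if_neg (by simp)] at h4
              refine r1 (p + l) (by omega) (fun j => ?_)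
              have := h4 j
              rwa [if_pos rfl] at this
            · omega
          rw [U_eq]
          omega
      · intro h
        rw [U_eq] at h
        by_cases hc : rh (TB + 1) (mk m n L R) ≤ p
        · refine ⟨0, Nat.zero_le _, false, fun r hr b => ?_⟩
          rw [if_neg (by simp)]
          intro j
          rcases Nat.eq_zero_or_pos r with h0 | h0
          · rw [if_pos h0, h0]
            exact r2 (p + 0) (by omega) hc j
          · rw [if_neg (by omega)]
            cases b with
            | true => exact r2 (p + r) (by omega) (by omega) j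
            | false => exact r3 (p + r) (by omega) (by omega) j
        · refine ⟨p - la (TB + 1) (mk m n L R), by omega, false, fun r hr b => ?_⟩
          by_cases hrl : r < p - la (TB + 1) (mk m n L R)
          · rw [if_pos (Or.inl hrl), if_neg (by omega)]
            exact l3 _ (by omega) (by omega)
          · rw [if_neg (by simp; omega)]
            intro j
            by_cases hre : r = p - la (TB + 1) (mk m n L R)
            · rw [if_pos hre]
              exact r2 (p + r) (by omega) (by omega) j
            · rw [if_neg hre]
              cases b with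
              | true => exact r2 (p + r) (by omega) (by omega) j
              | false => exact r3 (p + r) (by omega) (by omega) j
    · rw [leftWins_mk]
      constructor
      · rintro ⟨l, hl, a, h⟩
        by_cases hlD : l ≤ TB - p
        · have h1 := h l hlD true
          rw [if_pos (Or.inr ⟨rfl, rfl⟩)] at h1
          obtain ⟨i, hi⟩ := h1
          rw [if_pos rfl] at hi
          have h2 := l1 i (p - l) (by omega) hi
          have h3 : rh (TB + 1) (mk m n L R) ≤ p + l + 1 := by
            by_cases hlD2 : l + 1 ≤ TB - p
            · have h4 := h (l + 1) hlD2 true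
              rw [if_neg (by omega)] at h4
              refine r1 (p + l + 1) (by omega) (fun j => ?_)
              have := h4 j
              rw [if_neg (by omega)] at this
              exact this
            · omega
          rw [H_eq]
          omega
        · have h1 := h 0 (by omega) true
          rw [if_pos (Or.inl (by omega))] at h1
          obtain ⟨i, hi⟩ := h1
          rw [if_neg (by omega)] at hi
          have h2 : la (TB + 1) (mk m n L R) ≤ p - l + 1 := by
            cases a with
            | true => exact (l1 i (p - l) (by omega) hi).trans (by omega)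
            | false => exact l2 i (p - l) (by omega) hi
          rw [H_eq]
          omega
      · intro h
        rw [H_eq] at h
        refine ⟨p - la (TB + 1) (mk m n L R), by omega, true, fun r hr b => ?_⟩
        by_cases hrl : r ≤ p - la (TB + 1) (mk m n L R)
        · rw [if_pos (by
            rcases Nat.lt_or_ge r (p - la (TB + 1) (mk m n L R)) with h1 | h1
            · exact Or.inl h1
            · exact Or.inr ⟨by omega, rfl⟩)]
          obtain ⟨i, hi⟩ := l3 (p - (p - la (TB + 1) (mk m n L R))) (by omega) (by omega)
          refine ⟨i, ?_⟩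
          by_cases hre : r = p - la (TB + 1) (mk m n L R)
          · rw [if_pos hre]; exact hi
          · rw [if_neg hre]; exact hi
        · rw [if_neg (by omega)]
          intro j
          rw [if_neg (by omega)]
          exact r2 (p + r) (by omega) (by omega) j

theorem rightWins_iff_conj (TB : ℕ) (G : Form) : ∀ p ≤ TB, ∀ s : Bool,
    (RightWins TB G p s ↔ LeftWins TB (conj G) (TB - p) (!s)) := by
  induction G with
  | mk m n L R ihL ihR =>
    intro p hp s
    rw [rightWins_mk]
    show _ ↔ LeftWins TB (mk n m (fun j => conj (R j)) (fun i => conj (L i))) (TB - p) (!s)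
    rw [leftWins_mk]
    have hTB : TB - (TB - p) = p := by omega
    rw [hTB]
    refine exists_congr fun r => and_congr_right fun hr => exists_congr fun b =>
      forall_congr' fun l => imp_congr_right fun hl => forall_congr' fun a => ?_
    by_cases hc : r < l ∨ (r = l ∧ s = true)
    · have hc' : ¬ (l < r ∨ (l = r ∧ (!s) = true)) := by
        rcases hc with h | ⟨h1, h2⟩
        · omega
        · rw [h2]; simp; omega
      rw [if_pos hc, if_neg hc']
      refine forall_congr' fun i => ?_
      rw [ihL i (p - l) (by omega)]
      have e1 : TB - (p - l) = TB - p + l := by omega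
      have e2 : (!(if r = l then false else s && !a)) = (if l = r then true else (!s) || a) := by
        by_cases h : r = l
        · rw [if_pos h, if_pos h.symm]; rfl
        · rw [if_neg h, if_neg (fun h' => h h'.symm)]
          cases s <;> cases a <;> rfl
      rw [e1, e2]
    · have hc' : l < r ∨ (l = r ∧ (!s) = true) := by
        push Not at hc
        rcases Nat.lt_or_ge l r with h | h
        · exact Or.inl h
        · have h1 : r = l := by omega
          have h2 := hc.2 h1
          right
          refine ⟨h1.symm, ?_⟩
          cases s
          · rfl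
          · exact absurd rfl h2
      rw [if_neg hc, if_pos hc']
      refine exists_congr fun j => ?_
      rw [ihR j (p + r) (by omega)]
      have e1 : TB - (p + r) = TB - p - r := by omega
      have e2 : (!(if r = l then true else s || b)) = (if l = r then false else (!s) && !b) := by
        by_cases h : r = l
        · rw [if_pos h, if_pos h.symm]; rfl
        · rw [if_neg h, if_neg (fun h' => h h'.symm)]
          cases s <;> cases b <;> rfl
      rw [e1, e2]

/-- Every position is determined. -/
theorem determined (TB : ℕ) (G : Form) (p : ℕ) (hp : p ≤ TB) (s : Bool) :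
    RightWins TB G p s ↔ ¬ LeftWins TB G p s := by
  rw [rightWins_iff_conj TB G p hp s]
  have h1 := leftWins_iff TB G p hp
  have h2 := leftWins_iff TB (conj G) (TB - p) (by omega)
  have h3 := U_conj (TB + 1) G
  have h4 := H_conj (TB + 1) G
  cases s with
  | true =>
    show LeftWins TB (conj G) (TB - p) false ↔ _
    rw [h1.2, h2.1]
    omega
  | false =>
    show LeftWins TB (conj G) (TB - p) true ↔ _
    rw [h1.1, h2.2]
    omega

/-- A sufficient condition for `G ≥ H`. -/
theorem ge_of_cut (TB : ℕ) (P Q : Form) (h : U (TB + 1) (add P Q) = 0) : Ge TB P (conj Q) := by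
  intro X p s hp hw
  obtain ⟨h1, h2⟩ := cut (TB + 1) P Q X h
  have e1 := leftWins_iff TB (add P X) p hp
  have e2 := leftWins_iff TB (add (conj Q) X) p hp
  cases s with
  | true => exact (e1.2).mpr (h2.trans ((e2.2).mp hw))
  | false => exact (e1.1).mpr (h1.trans ((e2.1).mp hw))

/-- The main result: every inverse is the conjugate. -/
theorem main (TB : ℕ) (G K : Form) (h : Eqv TB (add G K) zero) : Eqv TB K (conj G) := by
  obtain ⟨h1, h2⟩ := h
  -- `G + K ≥ 0`
  have a1 : U (TB + 1) (add G K) = 0 := by
    have w0 : LeftWins TB (add zero zero) 0 false := by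
      rw [(leftWins_iff TB (add zero zero) 0 (Nat.zero_le _)).1, U_add_zero, U_eq, rh_zero]
      simp
    have w1 := h1 zero 0 false (Nat.zero_le _) w0
    rw [(leftWins_iff TB _ 0 (Nat.zero_le _)).1, U_add_zero] at w1
    omega
  -- `G + K ≤ 0`
  have a2 : H (TB + 1) (add G K) = TB + 1 := by
    by_contra hne
    have hle := H_le (TB + 1) (add G K)
    have w0 : LeftWins TB (add (add G K) zero) TB true := by
      rw [(leftWins_iff TB _ TB le_rfl).2, H_add_zero]
      omega
    have w1 := h2 zero TB true le_rfl w0
    rw [(leftWins_iff TB _ TB le_rfl).2, H_add_zero, H_eq, la_zero] at w1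
    omega
  constructor
  · apply ge_of_cut
    rw [U_add_comm]
    exact a1
  · have h3 : U (TB + 1) (add (conj G) (conj K)) = 0 := by
      rw [← conj_add]
      have := U_conj (TB + 1) (add G K)
      omega
    have h4 := ge_of_cut TB (conj G) (conj K) h3
    rwa [conj_conj] at h4

end Form

end Pool.Agent.Helper5.Bidding
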