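import Pool.Agent.Helper5.Bidding.Defs

set_option autoImplicit false

namespace Pool.Agent.Helper5.Bidding

namespace Form

/-! ### Options -/

def IsL (x : Form) : Form → Prop
  | mk _ _ L _ => ∃ i, L i = x

def IsR (x : Form) : Form → Prop
  | mk _ _ _ R => ∃ j, R j = x

theorem add_mk (m n : ℕ) (L : Fin m → Form) (R : Fin n → Form) (m' n' : ℕ) (L' : Fin m' → Form)
    (R' : Fin n' → Form) : add (mk m n L R) (mk m' n' L' R') = mk (m + m') (n + n')
      (Fin.addCases (fun i => add (L i) (mk m' n' L' R')) (fun i => add (mk m n L R) (L' i)))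
      (Fin.addCases (fun j => add (R j) (mk m' n' L' R')) (fun j => add (mk m n L R) (R' j))) :=
  rfl

theorem isL_mk (x : Form) (m n : ℕ) (L : Fin m → Form) (R : Fin n → Form) :
    IsL x (mk m n L R) ↔ ∃ i, L i = x := Iff.rfl

theorem isR_mk (x : Form) (m n : ℕ) (L : Fin m → Form) (R : Fin n → Form) :
    IsR x (mk m n L R) ↔ ∃ j, R j = x := Iff.rfl

theorem exists_addCases {m m' : ℕ} (f : Fin m → Form) (g : Fin m' → Form) (x : Form) :
    (∃ i : Fin (m + m'), (Fin.addCases f g i : Form) = x) ↔
      (∃ i, f i = x) ∨ (∃ i, g i = x) := by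
  constructor
  · rintro ⟨i, hi⟩
    revert hi
    refine Fin.addCases (fun i => ?_) (fun i => ?_) i
    · intro hi
      rw [Fin.addCases_left] at hi
      exact Or.inl ⟨i, hi⟩
    · intro hi
      rw [Fin.addCases_right] at hi
      exact Or.inr ⟨i, hi⟩
  · rintro (⟨i, rfl⟩ | ⟨i, rfl⟩)
    · exact ⟨Fin.castAdd m' i, Fin.addCases_left i⟩
    · exact ⟨Fin.natAdd m i, Fin.addCases_right i⟩

theorem isL_add (x : Form) : ∀ P Q : Form,
    IsL x (add P Q) ↔ (∃ y, IsL y P ∧ x = add y Q) ∨ (∃ y, IsL y Q ∧ x = add P y) := by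
  intro P Q
  cases P with
  | mk m n L R =>
    cases Q with
    | mk m' n' L' R' =>
      rw [add_mk, isL_mk, exists_addCases]
      simp only [isL_mk]
      constructor
      · rintro (⟨i, rfl⟩ | ⟨i, rfl⟩)
        · exact Or.inl ⟨L i, ⟨i, rfl⟩, rfl⟩
        · exact Or.inr ⟨L' i, ⟨i, rfl⟩, rfl⟩
      · rintro (⟨y, ⟨i, rfl⟩, rfl⟩ | ⟨y, ⟨i, rfl⟩, rfl⟩)
        · exact Or.inl ⟨i, rfl⟩
        · exact Or.inr ⟨i, rfl⟩

theorem isR_add (x : Form) : ∀ P Q : Form,
    IsR x (add P Q) ↔ (∃ y, IsR y P ∧ x = add y Q) ∨ (∃ y, IsR y Q ∧ x = add P y) := by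
  intro P Q
  cases P with
  | mk m n L R =>
    cases Q with
    | mk m' n' L' R' =>
      rw [add_mk, isR_mk, exists_addCases]
      simp only [isR_mk]
      constructor
      · rintro (⟨i, rfl⟩ | ⟨i, rfl⟩)
        · exact Or.inl ⟨R i, ⟨i, rfl⟩, rfl⟩
        · exact Or.inr ⟨R' i, ⟨i, rfl⟩, rfl⟩
      · rintro (⟨y, ⟨i, rfl⟩, rfl⟩ | ⟨y, ⟨i, rfl⟩, rfl⟩)
        · exact Or.inl ⟨i, rfl⟩
        · exact Or.inr ⟨i, rfl⟩

theorem isL_conj (x P : Form) : IsL x (conj P) ↔ ∃ y, IsR y P ∧ x = conj y := by
  cases P with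
  | mk m n L R =>
    constructor
    · rintro ⟨j, rfl⟩
      exact ⟨R j, ⟨j, rfl⟩, rfl⟩
    · rintro ⟨y, ⟨j, rfl⟩, rfl⟩
      exact ⟨j, rfl⟩

theorem isR_conj (x P : Form) : IsR x (conj P) ↔ ∃ y, IsL y P ∧ x = conj y := by
  cases P with
  | mk m n L R =>
    constructor
    · rintro ⟨j, rfl⟩
      exact ⟨L j, ⟨j, rfl⟩, rfl⟩
    · rintro ⟨y, ⟨j, rfl⟩, rfl⟩
      exact ⟨j, rfl⟩

theorem conj_conj (P : Form) : conj (conj P) = P := by
  induction P with
  | mk m n L R ihL ihR =>
    simp only [conj, ihL, ihR]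

/-! ### Thresholds -/

/-- thresholds: first without the marker, then with the marker; `N = TB + 1` -/
noncomputable def th (N : ℕ) : Form → ℕ × ℕ
  | mk _ _ L R =>
    let la := Finset.univ.fold min N (fun i => (th N (L i)).1)
    let rh := Finset.univ.sup (fun j => (th N (R j)).2)
    (min rh ((la + rh + 1) / 2), max la ((la + rh) / 2))

noncomputable def U (N : ℕ) (G : Form) : ℕ := (th N G).1
noncomputable def H (N : ℕ) (G : Form) : ℕ := (th N G).2
noncomputable def la (N : ℕ) : Form → ℕ
  | mk _ _ L _ => Finset.univ.fold min N (fun i => U N (L i))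
noncomputable def rh (N : ℕ) : Form → ℕ
  | mk _ _ _ R => Finset.univ.sup (fun j => H N (R j))

theorem U_eq (N : ℕ) (G : Form) : U N G = min (rh N G) ((la N G + rh N G + 1) / 2) := by
  cases G; rfl

theorem H_eq (N : ℕ) (G : Form) : H N G = max (la N G) ((la N G + rh N G) / 2) := by
  cases G; rfl

theorem la_le_iff (N c : ℕ) (G : Form) : la N G ≤ c ↔ N ≤ c ∨ ∃ x, IsL x G ∧ U N x ≤ c := by
  cases G with
  | mk m n L R =>
    simp only [la, IsL]
    rw [Finset.fold_min_le]
    constructor
    · rintro (h | ⟨i, -, h⟩)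
      · exact Or.inl h
      · exact Or.inr ⟨L i, ⟨i, rfl⟩, h⟩
    · rintro (h | ⟨x, ⟨i, rfl⟩, h⟩)
      · exact Or.inl h
      · exact Or.inr ⟨i, Finset.mem_univ i, h⟩

theorem rh_le_iff (N c : ℕ) (G : Form) : rh N G ≤ c ↔ ∀ x, IsR x G → H N x ≤ c := by
  cases G with
  | mk m n L R =>
    simp only [rh, IsR]
    rw [Finset.sup_le_iff]
    constructor
    · rintro h x ⟨j, rfl⟩
      exact h j (Finset.mem_univ j)
    · intro h j _
      exact h (R j) ⟨j, rfl⟩

theorem la_le (N : ℕ) (G : Form) : la N G ≤ N := (la_le_iff N N G).mpr (Or.inl le_rfl)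

theorem rh_le (N : ℕ) (G : Form) : rh N G ≤ N := by
  induction G with
  | mk m n L R ihL ihR =>
    rw [rh_le_iff]
    rintro x ⟨j, rfl⟩
    rw [H_eq]
    have h1 := ihR j
    have h2 := la_le N (R j)
    omega

theorem U_le_H (N : ℕ) (G : Form) : U N G ≤ H N G + 1 := by
  rw [U_eq, H_eq]; omega

theorem U_le (N : ℕ) (G : Form) : U N G ≤ N := by
  rw [U_eq]
  have := rh_le N G
  omega

theorem H_le (N : ℕ) (G : Form) : H N G ≤ N := by
  rw [H_eq]
  have := rh_le N G
  have := la_le N G
  omega

/-! ### The cut laws -/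

/-- a size function for the induction -/
noncomputable def size : Form → ℕ
  | mk _ _ L R => 1 + Finset.univ.sup (fun i => size (L i)) + Finset.univ.sup (fun j => size (R j))

theorem size_L {x G : Form} (h : IsL x G) : size x < size G := by
  cases G with
  | mk m n L R =>
    obtain ⟨i, rfl⟩ := h
    have := Finset.le_sup (f := fun i => size (L i)) (Finset.mem_univ i)
    simp only [size]
    omega

theorem size_R {x G : Form} (h : IsR x G) : size x < size G := by
  cases G with
  | mk m n L R =>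
    obtain ⟨j, rfl⟩ := h
    have := Finset.le_sup (f := fun j => size (R j)) (Finset.mem_univ j)
    simp only [size]
    omega

theorem cut_aux (N : ℕ) : ∀ k : ℕ, ∀ P Q R : Form, size P + size Q + size R ≤ k →
    rh N (add P R) ≤ rh N (add P Q) + rh N (add (conj Q) R) ∧
    la N (add P R) ≤ la N (add P Q) + rh N (add (conj Q) R) ∧
    la N (add P R) ≤ rh N (add P Q) + la N (add (conj Q) R) := by
  intro k
  induction k with
  | zero =>
    intro P Q R h
    exfalso
    have : 0 < size P := by cases P; simp only [size]; omega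
    omega
  | succ k ih =>
    intro P Q R hk
    refine ⟨?_, ?_, ?_⟩
    · rw [rh_le_iff]
      intro x hx
      rcases (isR_add x P R).mp hx with ⟨y, hy, rfl⟩ | ⟨y, hy, rfl⟩
      · have hs := size_R hy
        obtain ⟨i1, i2, i3⟩ := ih y Q R (by omega)
        have h1 : H N (add y Q) ≤ rh N (add P Q) :=
          (rh_le_iff N _ _).mp le_rfl _ ((isR_add _ _ _).mpr (Or.inl ⟨y, hy, rfl⟩))
        rw [H_eq] at h1 ⊢
        omega
      · have hs := size_R hy
        obtain ⟨i1, i2, i3⟩ := ih P Q y (by omega)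
        have h1 : H N (add (conj Q) y) ≤ rh N (add (conj Q) R) :=
          (rh_le_iff N _ _).mp le_rfl _ ((isR_add _ _ _).mpr (Or.inr ⟨y, hy, rfl⟩))
        rw [H_eq] at h1 ⊢
        omega
    · rcases (la_le_iff N _ (add P Q)).mp le_rfl with h | ⟨x, hx, hux⟩
      · have := la_le N (add P R)
        omega
      · rcases (isL_add x P Q).mp hx with ⟨y, hy, rfl⟩ | ⟨y, hy, rfl⟩
        · have hs := size_L hy
          obtain ⟨i1, i2, i3⟩ := ih y Q R (by omega)
          rw [la_le_iff]
          right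
          refine ⟨add y R, (isL_add _ _ _).mpr (Or.inl ⟨y, hy, rfl⟩), ?_⟩
          rw [U_eq] at hux ⊢
          omega
        · have hs := size_L hy
          obtain ⟨i1, i2, i3⟩ := ih P y R (by omega)
          have h1 : H N (add (conj y) R) ≤ rh N (add (conj Q) R) :=
            (rh_le_iff N _ _).mp le_rfl _ ((isR_add _ _ _).mpr
              (Or.inl ⟨conj y, (isR_conj _ _).mpr ⟨y, hy, rfl⟩, rfl⟩))
          rw [U_eq] at hux
          rw [H_eq] at h1
          omega
    · rcases (la_le_iff N _ (add (conj Q) R)).mp le_rfl with h | ⟨x, hx, hux⟩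
      · have := la_le N (add P R)
        omega
      · rcases (isL_add x (conj Q) R).mp hx with ⟨y, hy, rfl⟩ | ⟨y, hy, rfl⟩
        · obtain ⟨z, hz, rfl⟩ := (isL_conj _ _).mp hy
          have hs := size_R hz
          obtain ⟨i1, i2, i3⟩ := ih P z R (by omega)
          have h1 : H N (add P z) ≤ rh N (add P Q) :=
            (rh_le_iff N _ _).mp le_rfl _ ((isR_add _ _ _).mpr (Or.inr ⟨z, hz, rfl⟩))
          rw [U_eq] at hux
          rw [H_eq] at h1
          omega
        · have hs := size_L hy
          obtain ⟨i1, i2, i3⟩ := ih P Q y (by omega)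
          rw [la_le_iff]
          right
          refine ⟨add P y, (isL_add _ _ _).mpr (Or.inr ⟨y, hy, rfl⟩), ?_⟩
          rw [U_eq] at hux ⊢
          omega

/-- If the threshold of `P + Q` without marker is `0`, then `P` is at least as good as `conj Q` in
every context. -/
theorem cut (N : ℕ) (P Q R : Form) (h : U N (add P Q) = 0) :
    U N (add P R) ≤ U N (add (conj Q) R) ∧ H N (add P R) ≤ H N (add (conj Q) R) := by
  obtain ⟨i1, i2, i3⟩ := cut_aux N _ P Q R le_rfl
  rw [U_eq] at h
  have h0 : rh N (add P Q) = 0 := by omega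
  simp only [U_eq, H_eq]
  rw [h0] at i1 i3
  omega

/-! ### Symmetries -/

theorem add_comm_aux (N : ℕ) : ∀ k : ℕ, ∀ P Q : Form, size P + size Q ≤ k →
    la N (add P Q) ≤ la N (add Q P) ∧ rh N (add P Q) ≤ rh N (add Q P) := by
  intro k
  induction k with
  | zero =>
    intro P Q h
    exfalso
    have : 0 < size P := by cases P; simp only [size]; omega
    omega
  | succ k ih =>
    intro P Q hk
    constructor
    · rcases (la_le_iff N _ (add Q P)).mp le_rfl with h | ⟨x, hx, hux⟩
      · have := la_le N (add P Q)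
        omega
      · rw [la_le_iff]
        right
        rcases (isL_add x Q P).mp hx with ⟨y, hy, rfl⟩ | ⟨y, hy, rfl⟩
        · have hs := size_L hy
          obtain ⟨i1, i2⟩ := ih P y (by omega)
          refine ⟨add P y, (isL_add _ _ _).mpr (Or.inr ⟨y, hy, rfl⟩), ?_⟩
          rw [U_eq] at hux ⊢
          omega
        · have hs := size_L hy
          obtain ⟨i1, i2⟩ := ih y Q (by omega)
          refine ⟨add y Q, (isL_add _ _ _).mpr (Or.inl ⟨y, hy, rfl⟩), ?_⟩
          rw [U_eq] at hux ⊢
          omega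
    · rw [rh_le_iff]
      intro x hx
      rcases (isR_add x P Q).mp hx with ⟨y, hy, rfl⟩ | ⟨y, hy, rfl⟩
      · have hs := size_R hy
        obtain ⟨i1, i2⟩ := ih y Q (by omega)
        have h1 : H N (add Q y) ≤ rh N (add Q P) :=
          (rh_le_iff N _ _).mp le_rfl _ ((isR_add _ _ _).mpr (Or.inr ⟨y, hy, rfl⟩))
        rw [H_eq] at h1 ⊢
        omega
      · have hs := size_R hy
        obtain ⟨i1, i2⟩ := ih P y (by omega)
        have h1 : H N (add y P) ≤ rh N (add Q P) :=
          (rh_le_iff N _ _).mp le_rfl _ ((isR_add _ _ _).mpr (Or.inl ⟨y, hy, rfl⟩))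
        rw [H_eq] at h1 ⊢
        omega

theorem U_add_comm (N : ℕ) (P Q : Form) : U N (add P Q) = U N (add Q P) := by
  obtain ⟨i1, i2⟩ := add_comm_aux N _ P Q le_rfl
  obtain ⟨j1, j2⟩ := add_comm_aux N _ Q P le_rfl
  rw [U_eq, U_eq, le_antisymm i1 j1, le_antisymm i2 j2]

theorem conj_aux (N : ℕ) (G : Form) :
    la N (conj G) + rh N G = N ∧ rh N (conj G) + la N G = N := by
  induction G with
  | mk m n L R ihL ihR =>
    have hU : ∀ j, U N (conj (R j)) + H N (R j) = N := by
      intro j
      obtain ⟨h1, h2⟩ := ihR j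
      rw [U_eq, H_eq]
      omega
    have hH : ∀ i, H N (conj (L i)) + U N (L i) = N := by
      intro i
      obtain ⟨h1, h2⟩ := ihL i
      rw [U_eq, H_eq]
      omega
    constructor
    · apply le_antisymm
      · have h1 := rh_le N (mk m n L R)
        have h2 : la N (conj (mk m n L R)) ≤ N - rh N (mk m n L R) := by
          rw [la_le_iff]
          by_cases h0 : rh N (mk m n L R) = 0
          · left; omega
          · right
            have h3 : ¬ rh N (mk m n L R) ≤ rh N (mk m n L R) - 1 := by omega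
            rw [rh_le_iff] at h3
            push Not at h3
            obtain ⟨x, ⟨j, rfl⟩, hx⟩ := h3
            refine ⟨conj (R j), ⟨j, rfl⟩, ?_⟩
            have := hU j
            have h4 : H N (R j) ≤ rh N (mk m n L R) :=
              (rh_le_iff N _ _).mp le_rfl _ ⟨j, rfl⟩
            omega
        omega
      · rcases (la_le_iff N _ (conj (mk m n L R))).mp le_rfl with h | ⟨x, ⟨j, rfl⟩, hux⟩
        · omega
        · have := hU j
          have h4 : H N (R j) ≤ rh N (mk m n L R) :=
            (rh_le_iff N _ _).mp le_rfl _ ⟨j, rfl⟩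
          have hux' : U N (conj (R j)) ≤ la N (conj (mk m n L R)) := hux
          omega
    · apply le_antisymm
      · have h1 := la_le N (mk m n L R)
        have h2 : rh N (conj (mk m n L R)) ≤ N - la N (mk m n L R) := by
          rw [rh_le_iff]
          rintro x ⟨i, rfl⟩
          have := hH i
          have h4 : la N (mk m n L R) ≤ U N (L i) :=
            (la_le_iff N _ _).mpr (Or.inr ⟨L i, ⟨i, rfl⟩, le_rfl⟩)
          show H N (conj (L i)) ≤ _
          omega
        omega
      · rcases (la_le_iff N _ (mk m n L R)).mp le_rfl with h | ⟨x, ⟨i, rfl⟩, hux⟩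
        · omega
        · have := hH i
          have h4 : H N (conj (L i)) ≤ rh N (conj (mk m n L R)) :=
            (rh_le_iff N _ _).mp le_rfl _ ⟨i, rfl⟩
          omega

theorem U_conj (N : ℕ) (G : Form) : U N (conj G) + H N G = N := by
  obtain ⟨h1, h2⟩ := conj_aux N G
  rw [U_eq, H_eq]
  omega

theorem H_conj (N : ℕ) (G : Form) : H N (conj G) + U N G = N := by
  obtain ⟨h1, h2⟩ := conj_aux N G
  rw [U_eq, H_eq]
  omega

theorem conj_add (P Q : Form) : conj (add P Q) = add (conj P) (conj Q) := by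
  induction P generalizing Q with
  | mk m n L R ihL ihR =>
    induction Q with
    | mk m' n' L' R' ihL' ihR' =>
      show mk (n + n') (m + m') _ _ = mk (n + n') (m + m') _ _
      congr 1
      · funext j
        refine Fin.addCases (fun j => ?_) (fun j => ?_) j
        · simp only [Fin.addCases_left]
          exact ihR j (mk m' n' L' R')
        · simp only [Fin.addCases_right]
          exact ihR' j
      · funext i
        refine Fin.addCases (fun i => ?_) (fun i => ?_) i
        · simp only [Fin.addCases_left]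
          exact ihL i (mk m' n' L' R')
        · simp only [Fin.addCases_right]
          exact ihL' i

theorem not_isL_zero (x : Form) : ¬ IsL x zero := by
  rintro ⟨i, _⟩
  exact i.elim0

theorem not_isR_zero (x : Form) : ¬ IsR x zero := by
  rintro ⟨i, _⟩
  exact i.elim0

theorem add_zero_aux (N : ℕ) (G : Form) :
    la N (add G zero) = la N G ∧ rh N (add G zero) = rh N G := by
  induction G with
  | mk m n L R ihL ihR =>
    have hU : ∀ i, U N (add (L i) zero) = U N (L i) := by
      intro i
      rw [U_eq, U_eq, (ihL i).1, (ihL i).2]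
    have hH : ∀ j, H N (add (R j) zero) = H N (R j) := by
      intro j
      rw [H_eq, H_eq, (ihR j).1, (ihR j).2]
    constructor
    · apply eq_of_forall_ge_iff
      intro c
      rw [la_le_iff, la_le_iff]
      constructor
      · rintro (h | ⟨x, hx, h⟩)
        · exact Or.inl h
        · rcases (isL_add _ _ _).mp hx with ⟨y, ⟨i, rfl⟩, rfl⟩ | ⟨y, hy, _⟩
          · exact Or.inr ⟨L i, ⟨i, rfl⟩, by rw [← hU i]; exact h⟩
          · exact absurd hy (not_isL_zero y)
      · rintro (h | ⟨x, ⟨i, rfl⟩, h⟩)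
        · exact Or.inl h
        · exact Or.inr ⟨add (L i) zero, (isL_add _ _ _).mpr (Or.inl ⟨L i, ⟨i, rfl⟩, rfl⟩), by
            rw [hU i]; exact h⟩
    · apply eq_of_forall_ge_iff
      intro c
      rw [rh_le_iff, rh_le_iff]
      constructor
      · rintro h x ⟨j, rfl⟩
        have := h (add (R j) zero) ((isR_add _ _ _).mpr (Or.inl ⟨R j, ⟨j, rfl⟩, rfl⟩))
        rwa [hH j] at this
      · intro h x hx
        rcases (isR_add _ _ _).mp hx with ⟨y, ⟨j, rfl⟩, rfl⟩ | ⟨y, hy, _⟩
        · rw [hH j]; exact h _ ⟨j, rfl⟩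
        · exact absurd hy (not_isR_zero y)

theorem U_add_zero (N : ℕ) (G : Form) : U N (add G zero) = U N G := by
  rw [U_eq, U_eq, (add_zero_aux N G).1, (add_zero_aux N G).2]

theorem H_add_zero (N : ℕ) (G : Form) : H N (add G zero) = H N G := by
  rw [H_eq, H_eq, (add_zero_aux N G).1, (add_zero_aux N G).2]

theorem la_zero (N : ℕ) : la N zero = N := by
  apply le_antisymm (la_le N zero)
  rcases (la_le_iff N _ zero).mp le_rfl with h | ⟨x, hx, -⟩
  · exact h
  · exact absurd hx (not_isL_zero x)

theorem rh_zero (N : ℕ) : rh N zero = 0 := by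
  apply Nat.eq_zero_of_le_zero
  rw [rh_le_iff]
  intro x hx
  exact absurd hx (not_isR_zero x)

end Form

end Pool.Agent.Helper5.Bidding
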